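import Pool.Agent.U672.SF.Defs

/-!
# Cohomology with values in a semisimple tensor category: definitions
-/

set_option autoImplicit false

open CategoryTheory MonoidalCategory AlgebraicGeometry Pool.Agent.Y116.UV Pool.Agent.Z125.UN
  Pool.Agent.U672.SF

namespace Pool.Agent.U672.HD

universe v u

/-- The objects `H n w X`, for instance the pure structures `gr^W_w H^n_c(X)`, and the object `L`, the Tate
structure `ℚ(-1) = H^2(ℙ¹)`. -/
structure Data (k : Type) [Field k] (S : Type u) where
  H : ℤ → ℤ → Sch k → S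
  L : S

variable {k : Type} [Field k] {S : Type u} [Category.{v} S] [MonoidalCategory S] [Preadditive S]

/-- `M` is a direct factor of the direct sum of `A` and `B`. -/
def Fac (M A B : S) : Prop :=
  ∃ (i₁ : A ⟶ M) (i₂ : B ⟶ M) (p₁ : M ⟶ A) (p₂ : M ⟶ B), p₁ ≫ i₁ + p₂ ≫ i₂ = 𝟙 M

/-- The smallest class of objects which contains `G` and the direct factors of the sum of two members. -/
inductive AddGen (G : S → Prop) : S → Prop
  | gen (A : S) : G A → AddGen G A
  | factor (M A B : S) : Fac M A B → AddGen G A → AddGen G B → AddGen G M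

/-- The objects of *abelian type*: the smallest class which contains the `H n w X` for all schemes `X` of
dimension at most one, the direct factors of the sum of two members, the tensor products of two members, and
with one of the objects `A` and `L ⊗ A` also the other. -/
inductive Ab (T : Data k S) : S → Prop
  | curve (X : Sch k) (n w : ℤ) : FT True X → topologicalKrullDim X.left ≤ (1 : ℕ) → Ab T (T.H n w X)
  | factor (M A B : S) : Fac M A B → Ab T A → Ab T B → Ab T M
  | tensor (A B : S) : Ab T A → Ab T B → Ab T (A ⊗ B)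
  | twist (A : S) : Ab T A → Ab T (T.L ⊗ A)
  | untwist (A : S) : Ab T (T.L ⊗ A) → Ab T A

/-- Known properties of the objects `H n w X = gr^W_w H^n_c(X)` of a semisimple tensor category.

* `iso`: isomorphic schemes have isomorphic cohomology;
* `total`, `opened`, `closed`: for a closed subscheme `Z` of `X` with complement `U` the sequence
  `H^(n-1)_c(Z) → H^n_c(U) → H^n_c(X) → H^n_c(Z) → H^(n+1)_c(U)` is exact, and so are the sequences of the
  `gr^W_w`; as the category is semisimple, each term is a direct factor of the sum of its neighbours;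
* `bundle`: for the affine bundle `Spec A[w_1, …, w_m] / (∑ f_l w_l - 1) → U` with fibre `𝔸^(m-1)`, where
  `U` is the complement of `f = 0` in `Spec A`;
* `torus`: `H^n_c(X)` is a direct factor of `H^(n+1)_c(X × 𝔾_m)`;
* `kuenneth`: `gr^W_w H^n_c(X × Y)` is the sum of the
  `gr^W_c H^a_c(X) ⊗ gr^W_d H^b_c(Y)`, `a + b = n`, `c + d = w`;
* `transfer`: if `B` is a free `A`-module of finite rank `d + 1`, then `H^n_c(Spec A)` is a direct factor of
  `H^n_c(Spec B)`. -/
structure Facts (T : Data k S) : Prop where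
  iso : ∀ (n w : ℤ) {X Y : Sch k}, FT True X → Nonempty (X ≅ Y) →
    Nonempty (T.H n w X ≅ T.H n w Y)
  total : ∀ (n w : ℤ) {Z X U : Sch k} (i : Z ⟶ X) (j : U ⟶ X), FT True X → IsTriple i j →
    Fac (T.H n w X) (T.H n w U) (T.H n w Z)
  opened : ∀ (n w : ℤ) {Z X U : Sch k} (i : Z ⟶ X) (j : U ⟶ X), FT True X → IsTriple i j →
    Fac (T.H n w U) (T.H n w X) (T.H (n - 1) w Z)
  closed : ∀ (n w : ℤ) {Z X U : Sch k} (i : Z ⟶ X) (j : U ⟶ X), FT True X → IsTriple i j →
    Fac (T.H n w Z) (T.H n w X) (T.H (n + 1) w U)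
  bundle : ∀ (n w : ℤ) (A : Type) [CommRing A] [Algebra k A] [Algebra.FiniteType k A] (m : ℕ)
    (f : Fin m → A) (U : Sch k) (j : U ⟶ aff k A), IsOpenImmersion j.left →
    Set.range j.left = {x : PrimeSpectrum A | ∃ l, f l ∉ x.asIdeal} →
    Nonempty (T.H (n + 2 * (m - 1 : ℕ)) (w + 2 * (m - 1 : ℕ)) (aff k (Jou f)) ≅
      tw T.L (m - 1) (T.H n w U))
  torus : ∀ (n w : ℤ) (A : Type) [CommRing A] [Algebra k A] [Algebra.FiniteType k A],
    Fac (T.H n w (aff k A)) (T.H (n + 1) w (aff k (LaurentPolynomial A)))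
      (T.H (n + 1) w (aff k (LaurentPolynomial A)))
  kuenneth : ∀ (n w : ℤ) (A B : Type) [CommRing A] [CommRing B] [Algebra k A] [Algebra k B]
    [Algebra.FiniteType k A] [Algebra.FiniteType k B],
    AddGen (fun M => ∃ a b c d : ℤ, a + b = n ∧ c + d = w ∧
      M = T.H a c (aff k A) ⊗ T.H b d (aff k B)) (T.H n w (aff k (TensorProduct k A B)))
  transfer : ∀ (n w : ℤ) (A B : Type) [CommRing A] [CommRing B] [Algebra k A] [Algebra k B]
    [Algebra A B] [IsScalarTower k A B] [Algebra.FiniteType k A] (d : ℕ),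
    Nonempty (Module.Basis (Fin (d + 1)) A B) →
      Fac (T.H n w (aff k A)) (T.H n w (aff k B)) (T.H n w (aff k B))

end Pool.Agent.U672.HD
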