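import Pool.Agent.U672.HD.Defs
import Pool.Agent.U672.SF.Main

/-!
# Cohomology of abelian type
-/

set_option autoImplicit false
set_option linter.unusedSectionVars false

open CategoryTheory MonoidalCategory AlgebraicGeometry MvPolynomial Pool.Agent.TH137.DG
  Pool.Agent.Y116.UV Pool.Agent.Z125.UN Pool.Agent.U672.ST Pool.Agent.U672.TC Pool.Agent.U672.SF
  Pool.Agent.U672.MW Pool.Agent.U738.BN

namespace Pool.Agent.U672.HD

universe v u

variable {k : Type} [Field k] {S : Type u} [Category.{v} S] [MonoidalCategory S] [Preadditive S]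
  {T : Data k S}

lemma fac_of_iso {A B : S} (e : Nonempty (A ≅ B)) : Fac B A A := by
  obtain ⟨e⟩ := e
  exact ⟨e.hom, 0, e.inv, 0, by rw [e.inv_hom_id, Limits.zero_comp, add_zero]⟩

lemma Ab.iso {A B : S} (e : Nonempty (A ≅ B)) (h : Ab T A) : Ab T B :=
  Ab.factor _ _ _ (fac_of_iso e) h h

lemma Ab.iso_iff {A B : S} (e : Nonempty (A ≅ B)) : Ab T A ↔ Ab T B :=
  ⟨Ab.iso e, Ab.iso (e.map Iso.symm)⟩

lemma Ab.tw_iff (A : S) : ∀ n, Ab T (tw T.L n A) ↔ Ab T A
  | 0 => Iff.rfl
  | n + 1 => (⟨Ab.untwist _, Ab.twist _⟩ : _ ↔ _).trans (Ab.tw_iff A n)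

/-- all cohomology is of abelian type -/
def AbX (T : Data k S) (X : Sch k) : Prop := ∀ n w : ℤ, Ab T (T.H n w X)

lemma abx_aff (A : Type) [CommRing A] [Algebra k A] [Algebra.FiniteType k A]
    (hA : ringKrullDim A ≤ (1 : ℕ)) : AbX T (aff k A) := fun n w =>
  Ab.curve _ n w (ft_aff True) (by rw [topDim_aff]; exact hA)

variable (hT : Facts T)

include hT

lemma abx_bundle {A : Type} [CommRing A] [Algebra k A] [Algebra.FiniteType k A] {m : ℕ}
    {f : Fin m → A} {U : Sch k} {j : U ⟶ aff k A} (hj : IsOpenImmersion j.left)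
    (hr : Set.range j.left = {x : PrimeSpectrum A | ∃ l, f l ∉ x.asIdeal}) :
    AbX T (aff k (Jou f)) ↔ AbX T U := by
  constructor
  · intro h n w
    exact (Ab.tw_iff _ _).mp ((Ab.iso_iff (hT.bundle n w A m f U j hj hr)).mp (h _ _))
  · intro h n w
    have h1 := (Ab.iso_iff (hT.bundle (n - 2 * (m - 1 : ℕ)) (w - 2 * (m - 1 : ℕ)) A m f U j hj
      hr)).mpr ((Ab.tw_iff _ _).mpr (h _ _))
    rwa [sub_add_cancel, sub_add_cancel] at h1

theorem bnd_h : Bnd True (AbX T) where
  iso h e hX n w := Ab.iso (hT.iso n w h e) (hX n w)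
  total i j h ht hZ hU n w := Ab.factor _ _ _ (hT.total n w i j h ht) (hU n w) (hZ n w)
  opened i j h ht hZ hX n w := Ab.factor _ _ _ (hT.opened n w i j h ht) (hX n w) (hZ _ w)
  closed i j h ht hX hU n w := Ab.factor _ _ _ (hT.closed n w i j h ht) (hX n w) (hU _ w)
  space n := by
    have h1 : AbX T (aff k k) := abx_aff k (by
      rw [ringKrullDim_eq_zero_of_field]
      exact_mod_cast zero_le_one (α := ℕ))
    have h3 : AbX T (aff k (Jou (f1 k n))) :=
      (abx_bundle hT (j := 𝟙 (aff k k)) inferInstance (range_id n)).mpr h1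
    intro a b
    exact Ab.iso (hT.iso a b (ft_aff True) ⟨(affIso (jouOne k n)).symm⟩) (h3 a b)
  jouanolou A _ _ _ m f U j hj hr h := (abx_bundle hT hj hr).mp h
  torus A _ _ _ h n w := Ab.factor _ _ _ (hT.torus n w A) (h _ w) (h _ w)
  bundle A _ _ _ m f U j hj hr h := (abx_bundle hT hj hr).mpr h

lemma addGen_ab {G : S → Prop} (h : ∀ A, G A → Ab T A) {M : S} (hM : AddGen G M) : Ab T M := by
  induction hM with
  | gen A hA => exact h A hA
  | factor M A B hf _ _ h1 h2 => exact Ab.factor _ _ _ hf h1 h2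

theorem bndt_h : BndT (AbX T) where
  toBnd := bnd_h hT
  prod A B _ _ _ _ _ _ hA hB n w := by
    refine addGen_ab hT ?_ (hT.kuenneth n w A B)
    rintro M ⟨a, b, c, d, _, _, rfl⟩
    exact Ab.tensor _ _ (hA _ _) (hB _ _)
  transfer A B _ _ _ _ _ _ _ d b h n w :=
    Ab.factor _ _ _ (hT.transfer n w A B d b) (h n w) (h n w)

theorem posN_h : PosN True (AbX T) 1 := by
  have h := pos_of_bnd (bndt_h hT).toBnd fun A _ _ _ => by
    refine abx_aff A ?_
    refine (dim_integral (A := k) A).trans ?_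
    rw [ringKrullDim_eq_zero_of_field]
    exact_mod_cast zero_le_one (α := ℕ)
  exact { toPos := h, dim := fun A _ _ _ hA => abx_aff A hA }

theorem constructed_ab (X : Sch k) (hX : Constructed 1 (AbX T) X) : AbX T X := by
  have hP := bndt_h hT
  have hp : PosN True (AbX T) 1 := posN_h hT
  have h2 : Plane (AbX T) := plane_of hp.dim hP le_rfl
  induction hX with
  | system σ q r G H he hI => exact main_P hP h2 hp G H hI he
  | sum n σ f A g hf hA => exact elem_sol hp.dim hP le_rfl hf hA g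
  | small X hX hd => exact fun n w => Ab.curve X n w hX hd
  | given X hX => exact hX
  | iso X Y hX e _ h => exact hP.iso hX e h
  | total i j hX ht _ _ h1 h2 => exact hP.total i j hX ht h1 h2
  | opened i j hX ht _ _ h1 h2 => exact hP.opened i j hX ht h1 h2
  | closed i j hX ht _ _ h1 h2 => exact hP.closed i j hX ht h1 h2
  | product A B _ _ h1 h2 => exact hP.prod A B h1 h2
  | covering A B d b _ h => exact hP.transfer A B d b h

end Pool.Agent.U672.HD
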